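import Pool.Agent.W873.RT.Stm
import Pool.Agent.W111.RS.MEAS

/-!
# The number of distinct real roots of `∑ c i * f i ^ 2` is a measurable function of `c`
-/

set_option autoImplicit false

open MeasureTheory Polynomial Filter Topology

namespace Pool.Agent.W878.RT.MS2

open Pool.Agent.W873.RT

theorem continuous_sq {s : ℕ} (f : Fin s → ℝ[X]) :
    Continuous (fun p : (Fin s → ℝ) × ℝ => (sq f p.1).eval p.2) := by
  have h : ∀ p : (Fin s → ℝ) × ℝ, (sq f p.1).eval p.2 = ∑ i, p.1 i * (f i).eval p.2 ^ 2 := by
    intro p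
    unfold Pool.Agent.W873.RT.sq
    simp [eval_finsetSum]
  simp only [h]
  refine continuous_finsetSum _ fun i _ => ?_
  exact ((continuous_apply i).comp continuous_fst).mul
    (((f i).continuous.comp continuous_snd).pow 2)

theorem closed_root {s : ℕ} (f : Fin s → ℝ[X]) (a b : ℝ) :
    IsClosed {z : Fin s → ℝ | ∃ x ∈ Set.Icc a b, (sq f z).eval x = 0} := by
  have h1 : IsClosed {p : (Fin s → ℝ) × Set.Icc a b | (sq f p.1).eval (p.2 : ℝ) = 0} := by
    refine isClosed_eq ?_ continuous_const
    exact (continuous_sq f).comp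
      (continuous_fst.prodMk (continuous_subtype_val.comp continuous_snd))
  have h2 := isClosedMap_fst_of_compactSpace (X := Fin s → ℝ) (Y := Set.Icc a b) _ h1
  convert h2 using 1
  ext z
  simp only [Set.mem_ofPred_eq, Set.mem_image, Prod.exists, exists_and_right, exists_eq_right]
  constructor
  · rintro ⟨x, hx, h0⟩
    exact ⟨⟨x, hx⟩, h0⟩
  · rintro ⟨⟨x, hx⟩, h0⟩
    exact ⟨x, hx, h0⟩

theorem closed_zero {s : ℕ} (f : Fin s → ℝ[X]) : IsClosed {z : Fin s → ℝ | sq f z = 0} := by
  have h1 : {z : Fin s → ℝ | sq f z = 0} = ⋂ n : ℕ, {z | (sq f z).eval (n : ℝ) = 0} := by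
    ext z
    simp only [Set.mem_ofPred_eq, Set.mem_iInter]
    constructor
    · intro h0 n
      rw [h0, eval_zero]
    · intro h0
      refine Polynomial.eq_zero_of_infinite_isRoot _ ?_
      refine Set.Infinite.mono (s := Set.range (fun n : ℕ => (n : ℝ))) ?_
        (Set.infinite_range_of_injective Nat.cast_injective)
      rintro _ ⟨n, rfl⟩
      exact h0 n
  rw [h1]
  refine isClosed_iInter fun n => isClosed_eq ?_ continuous_const
  exact (continuous_sq f).comp (continuous_id.prodMk continuous_const)

theorem main : Pool.Agent.W873.RT.MS2 := by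
  intro s f
  refine ⟨?_, (continuous_sq f).measurable⟩
  have key : ∀ k : ℕ, MeasurableSet {z : Fin s → ℝ | k ≤ (sq f z).roots.toFinset.card} := by
    intro k
    rcases Nat.eq_zero_or_pos k with rfl | hk
    · simp
    · have h1 : {z : Fin s → ℝ | k ≤ (sq f z).roots.toFinset.card} =
          {z | sq f z = 0}ᶜ ∩ ⋃ p : (Fin k → ℚ) × ℚ,
            ⋃ _ : (∀ i j, i ≠ j → 2 * (p.2 : ℝ) < |(p.1 i : ℝ) - p.1 j|),
              ⋂ j, {z | ∃ x ∈ Set.Icc ((p.1 j : ℝ) - p.2) (p.1 j + p.2),
                (sq f z).eval x = 0} := by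
        ext z
        simp only [Set.mem_ofPred_eq, Set.mem_inter_iff, Set.mem_compl_iff, Set.mem_iUnion,
          Set.mem_iInter]
        constructor
        · intro h2
          have hne : sq f z ≠ 0 := by
            intro h0
            rw [h0] at h2
            simp at h2
            omega
          obtain ⟨p, h3, h4⟩ := (Pool.Agent.W111.RS.MEAS.le_card_roots _ hne k).1 h2
          exact ⟨hne, p, h3, h4⟩
        · rintro ⟨hne, p, h3, h4⟩
          exact (Pool.Agent.W111.RS.MEAS.le_card_roots _ hne k).2 ⟨p, h3, h4⟩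
      rw [h1]
      refine (closed_zero f).measurableSet.compl.inter
        (MeasurableSet.iUnion fun p => MeasurableSet.iUnion fun _ =>
          MeasurableSet.iInter fun j => (closed_root f _ _).measurableSet)
  refine measurable_to_countable' fun k => ?_
  have h1 : (fun z : Fin s → ℝ => (sq f z).roots.toFinset.card) ⁻¹' {k} =
      {z | k ≤ (sq f z).roots.toFinset.card} \
        {z | k + 1 ≤ (sq f z).roots.toFinset.card} := by
    ext z
    simp only [Set.mem_preimage, Set.mem_singleton_iff, Set.mem_sdiff, Set.mem_ofPred_eq]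
    omega
  rw [h1]
  exact (key k).diff (key (k + 1))

end Pool.Agent.W878.RT.MS2
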